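import Pool.Agent.H183.SQ.Stm
import Pool.Graph.R_seed8.H951R4.OD.Design

/-!
# From regular designs to difference sets in the same group
-/

set_option autoImplicit false

namespace Pool.Agent.H183.SQ.REG

open Finset Matrix Pool.Agent.H951R4.OD

/-- a symmetric design with a regular automorphism group `H` gives a difference set in `H`; this is
the proof of `Pool.Agent.TH66.HF.regdesign_ds'` -/
theorem regdesign_H {v k lam : ℕ} {B : Fin v → Finset (Fin v)}
    {H : Subgroup (Equiv.Perm (Fin v))} (h : RegDesign v k lam B H) (hlam : 1 ≤ lam)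
    (hv : 2 ≤ v) :
    lam < k ∧ ∃ (_ : Fintype H) (_ : DecidableEq H) (D : Finset H), D.card = k ∧
      ∀ g : H, g ≠ 1 → ((D ×ˢ D).filter (fun p : H × H => p.1 * p.2⁻¹ = g)).card = lam := by
  classical
  obtain ⟨hlk, hdet, hint⟩ := design_facts hv hlam h.kv h.size h.pair
  refine ⟨hlk, inferInstance, inferInstance, ?_⟩
  let x0 : Fin v := ⟨0, by omega⟩
  let i0 : Fin v := ⟨0, by omega⟩
  -- blocks are distinct
  have hinj : ∀ i j, B i = B j → i = j := by
    intro i j hij
    by_contra hne
    have h1 := hint i j hne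
    rw [← hij, Finset.inter_self, h.size i] at h1
    omega
  -- the set of blocks in the orbit of `B i0`
  let O : Finset (Fin v) := univ.filter (fun i => ∃ g ∈ H, (B i0).image g = B i)
  have hi0 : i0 ∈ O := by
    simp only [O, Finset.mem_filter, Finset.mem_univ, true_and]
    exact ⟨1, H.one_mem, by simp⟩
  -- number of blocks of the orbit through a point is constant
  have hconst : ∀ x y : Fin v, (O.filter (fun i => x ∈ B i)).card ≤
      (O.filter (fun i => y ∈ B i)).card := by
    intro x y
    obtain ⟨g, ⟨hg, hgx⟩, -⟩ := h.reg x y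
    -- map i ↦ j with g B i = B j
    have hj : ∀ i, ∃ j, (B i).image g = B j := fun i => h.aut g hg i
    choose σ hσ using hj
    apply Finset.card_le_card_of_injOn σ
    · intro i hi
      simp only [O, Finset.coe_filter, Finset.mem_filter, Finset.mem_univ, true_and,
        Set.mem_ofPred_eq] at hi ⊢
      obtain ⟨⟨g', hg', hi1⟩, hi2⟩ := hi
      refine ⟨⟨g * g', H.mul_mem hg hg', ?_⟩, ?_⟩
      · rw [← hσ i, ← hi1, Finset.image_image]
        rfl
      · rw [← hσ i, Finset.mem_image]
        exact ⟨x, hi2, hgx⟩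
    · intro i _ j _ hij
      apply hinj
      have h1 : (B i).image g = (B j).image g := by rw [hσ i, hσ j, hij]
      exact Finset.image_injective g.injective h1
  have hconst' : ∀ x y : Fin v, (O.filter (fun i => x ∈ B i)).card =
      (O.filter (fun i => y ∈ B i)).card := fun x y => le_antisymm (hconst x y) (hconst y x)
  set c : ℕ := (O.filter (fun i => x0 ∈ B i)).card with hc
  obtain ⟨hr, -⟩ := repl v k lam hv hlam B h.size h.pair
  have hk0 : (k : ℚ) ≠ 0 := by
    have : k ≠ 0 := by omega
    exact_mod_cast this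
  -- the indicator of `O` is constant
  have hvec : (fun i => (if i ∈ O then (1 : ℚ) else 0)) - (fun _ => (c : ℚ) / k) = 0 := by
    have h1 : ((fun i => (if i ∈ O then (1 : ℚ) else 0)) - (fun _ => (c : ℚ) / k)) ᵥ* (inc B) = 0 := by
      ext x
      simp only [Matrix.vecMul, dotProduct, Pi.sub_apply, Pi.zero_apply, sub_mul,
        Finset.sum_sub_distrib]
      have h2 : ∑ i, (if i ∈ O then (1 : ℚ) else 0) * inc B i x = c := by
        have h3 : ∀ i, (if i ∈ O then (1 : ℚ) else 0) * inc B i x =
            if (i ∈ O ∧ x ∈ B i) then 1 else 0 := by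
          intro i
          simp only [inc]
          split_ifs <;> simp_all
        rw [Finset.sum_congr rfl (fun h _ => h3 h), Finset.sum_boole, hc, hconst' x0 x]
        congr 2
        ext i
        simp
      have h4 : ∑ i, (c : ℚ) / k * inc B i x = c := by
        rw [← Finset.mul_sum]
        have h5 : ∑ i, inc B i x = (k : ℚ) := by
          simp only [inc, Finset.sum_boole]
          exact_mod_cast hr x
        rw [h5]
        field_simp
      rw [h2, h4, sub_self]
    have hunit : IsUnit (inc B).det := isUnit_iff_ne_zero.2 hdet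
    have h2 := congrArg (fun w => w ᵥ* (inc B)⁻¹) h1
    simp only [Matrix.vecMul_vecMul, Matrix.mul_nonsing_inv _ hunit, Matrix.vecMul_one,
      Matrix.zero_vecMul] at h2
    exact h2
  have hall : ∀ i, i ∈ O := by
    intro i
    have h1 := congrFun hvec i
    have h2 := congrFun hvec i0
    simp only [Pi.sub_apply, Pi.zero_apply, hi0, if_true] at h1 h2
    by_contra hi
    rw [if_neg hi] at h1
    linarith
  -- the stabiliser of `B i0` is trivial: count
  have hcardH : Fintype.card H = v := by
    have h1 : Function.Bijective (fun g : H => (g : Equiv.Perm (Fin v)) x0) := by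
      constructor
      · intro a b hab
        obtain ⟨g, -, hu⟩ := h.reg x0 ((a : Equiv.Perm (Fin v)) x0)
        have e1 := hu a ⟨a.2, rfl⟩
        have e2 := hu b ⟨b.2, hab.symm⟩
        exact Subtype.ext (e1.trans e2.symm)
      · intro y
        obtain ⟨g, ⟨hg, hgx⟩, -⟩ := h.reg x0 y
        exact ⟨⟨g, hg⟩, hgx⟩
    rw [Fintype.card_of_bijective h1, Fintype.card_fin]
  have hτ : ∀ g : H, ∃ j, (B i0).image (g : Equiv.Perm (Fin v)) = B j := fun g => h.aut g g.2 i0
  choose τ hτ using hτ
  have hτsurj : Function.Surjective τ := by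
    intro i
    have := hall i
    simp only [O, Finset.mem_filter, Finset.mem_univ, true_and] at this
    obtain ⟨g, hg, hgi⟩ := this
    refine ⟨⟨g, hg⟩, hinj _ _ ?_⟩
    rw [← hτ ⟨g, hg⟩]
    exact hgi
  have hτinj : Function.Injective τ :=
    ((Fintype.bijective_iff_surjective_and_card τ).2 ⟨hτsurj, by simp [hcardH]⟩).1
  -- the difference set
  let D : Finset H := univ.filter (fun g => (g : Equiv.Perm (Fin v)) x0 ∈ B i0)
  have hreg2 : ∀ y : Fin v, ∃ g : H, (g : Equiv.Perm (Fin v)) x0 = y := by
    intro y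
    obtain ⟨g, ⟨hg, hgx⟩, -⟩ := h.reg x0 y
    exact ⟨⟨g, hg⟩, hgx⟩
  have hreg1 : ∀ a b : H, (a : Equiv.Perm (Fin v)) x0 = (b : Equiv.Perm (Fin v)) x0 → a = b := by
    intro a b hab
    obtain ⟨g, -, hu⟩ := h.reg x0 ((a : Equiv.Perm (Fin v)) x0)
    have e1 := hu a ⟨a.2, rfl⟩
    have e2 := hu b ⟨b.2, hab.symm⟩
    exact Subtype.ext (e1.trans e2.symm)
  refine ⟨D, ?_, ?_⟩
  · rw [← h.size i0]
    refine Finset.card_bij (fun g _ => (g : Equiv.Perm (Fin v)) x0) ?_ ?_ ?_
    · intro g hg
      simpa [D] using hg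
    · intro a _ b _ hab
      exact hreg1 a b hab
    · intro y hy
      obtain ⟨g, hg⟩ := hreg2 y
      exact ⟨g, by simpa [D, hg] using hy, hg⟩
  · intro g hg
    -- `g⁻¹ B i0 = B (τ g⁻¹) ≠ B i0`
    have hne : τ g⁻¹ ≠ i0 := by
      intro h1
      have h2 : τ (1 : H) = i0 := by
        apply hinj
        rw [← hτ 1]
        simp
      have := hτinj (h1.trans h2.symm)
      exact hg (inv_eq_one.1 this)
    rw [← hint i0 (τ g⁻¹) hne.symm]
    symm
    refine Finset.card_bij (fun y _ => ((g * Classical.choose (hreg2 y)), Classical.choose (hreg2 y)))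
      ?_ ?_ ?_
    · intro y hy
      have hs := Classical.choose_spec (hreg2 y)
      rw [Finset.mem_inter] at hy
      simp only [Finset.mem_filter, Finset.mem_product, D, Finset.mem_univ, true_and]
      refine ⟨⟨?_, ?_⟩, by group⟩
      · have h3 : y ∈ (B i0).image ((g⁻¹ : H) : Equiv.Perm (Fin v)) := by
          rw [hτ g⁻¹]; exact hy.2
        rw [Finset.mem_image] at h3
        obtain ⟨z, hz, hzy⟩ := h3
        have h4 : ((g * Classical.choose (hreg2 y) : H) : Equiv.Perm (Fin v)) x0 = z := by
          rw [Subgroup.coe_mul, Equiv.Perm.mul_apply, hs, ← hzy, ← Equiv.Perm.mul_apply,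
            ← Subgroup.coe_mul, mul_inv_cancel]
          rfl
        rw [h4]
        exact hz
      · rw [hs]; exact hy.1
    · intro y1 _ y2 _ h12
      have h3 := (Prod.mk.inj h12).2
      rw [← Classical.choose_spec (hreg2 y1), ← Classical.choose_spec (hreg2 y2), h3]
    · rintro ⟨a, b⟩ hab
      simp only [Finset.mem_filter, Finset.mem_product, D, Finset.mem_univ, true_and] at hab
      obtain ⟨⟨ha, hb⟩, habg⟩ := hab
      have hagb : a = g * b := by rw [← habg]; group
      refine ⟨(b : Equiv.Perm (Fin v)) x0, ?_, ?_⟩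
      · rw [Finset.mem_inter, ← hτ g⁻¹]
        refine ⟨hb, ?_⟩
        rw [Finset.mem_image]
        refine ⟨(a : Equiv.Perm (Fin v)) x0, ha, ?_⟩
        rw [← Equiv.Perm.mul_apply, ← Subgroup.coe_mul, hagb, inv_mul_cancel_left]
      · have h5 : Classical.choose (hreg2 ((b : Equiv.Perm (Fin v)) x0)) = b :=
          hreg1 _ _ (Classical.choose_spec (hreg2 ((b : Equiv.Perm (Fin v)) x0)))
        simp only [h5, hagb]

/-- A symmetric design with a commutative regular automorphism group gives a difference set in a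
commutative group. -/
theorem hasSq_of_reg {v u lam : ℕ} {B : Fin v → Finset (Fin v)}
    {H : Subgroup (Equiv.Perm (Fin v))} (h : RegDesign v (u ^ 2 + lam) lam B H) (hlam : 1 ≤ lam)
    (hv : 2 ≤ v) (hc : ∀ a ∈ H, ∀ b ∈ H, a * b = b * a) : Pool.Agent.H183.SQ.HasSq u lam := by
  obtain ⟨-, i1, i2, D, h1, h2⟩ := regdesign_H h hlam hv
  exact ⟨H, { (inferInstance : Group H) with
    mul_comm := fun a b => Subtype.ext (hc a a.2 b b.2) }, i1, i2, D, h1, h2⟩

end Pool.Agent.H183.SQ.REG
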