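import Pool.Agent.H183.SQ.Stm
import Pool.Agent.H183.MU.ALM

set_option autoImplicit false

namespace Pool.Agent.H183.SQ

open Finset Filter Topology Pool.Agent.H183.MU Pool.Agent.H183.MU.ALM

namespace QFIN

theorem fin_pairs2 (X : ℕ) (Q : ℕ × ℕ → Prop) :
    ({x : ℕ × ℕ | 1 ≤ x.1 ∧ x.2.Prime ∧ Q x ∧ x.1 * x.2 ≤ X} : Set (ℕ × ℕ)).Finite := by
  refine Set.Finite.subset (Set.Finite.prod (Set.finite_Iic X) (Set.finite_Iic X)) ?_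
  rintro ⟨t, p⟩ ⟨h1, h2, h3, h4⟩
  simp only at h1 h2 h3 h4
  have h5 := h2.pos
  refine ⟨?_, ?_⟩
  · simp only [Set.mem_Iic]
    nlinarith
  · simp only [Set.mem_Iic]
    nlinarith

theorem odd_L {lam : ℕ} (h : 1 ≤ lam) : Odd (4 * lam - 1) := ⟨2 * lam - 1, by omega⟩

/-- the primes of `R` are larger than `lam` -/
theorem lam_lt {lam w : ℕ} (h : 1 ≤ lam) (hw : w.Prime) (hd : (4 * lam - 1) ∣ w - 1) : lam < w := by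
  have h1 : 0 < w - 1 := by have := hw.two_le; omega
  have h2 := Nat.le_of_dvd h1 hd
  omega

theorem not_dvd_lam {lam w : ℕ} (h : 1 ≤ lam) (hw : w.Prime) (hd : (4 * lam - 1) ∣ w - 1) :
    ¬ w ∣ lam := fun h1 => absurd (Nat.le_of_dvd (by omega) h1) (by
      have := lam_lt h hw hd
      omega)

end QFIN

open QFIN in
theorem one_lam (hK : S_KEYQ) (hD : S_DENS2) (hdir : S_DIR) (hcls : S_CLS) (hroot : S_ROOTQ)
    (hs : S_SMU) (lam : ℕ) (hlam : 1 ≤ lam) (ε : ℝ) (hε : 0 < ε) : ∃ X₀ : ℕ, ∀ X : ℕ, X₀ ≤ X →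
    (({u : ℕ | 1 ≤ u ∧ u ≤ X ∧ HasSq u lam}.ncard : ℕ) : ℝ) ≤ ε * X := by
  set L := 4 * lam - 1 with hL
  have hRp : ∀ w ∈ RR 2 L, w.Prime := fun w hw => hw.1
  have hR2 : ∀ w ∈ RR 2 L, w ≠ 2 := fun w hw => ne_two (by norm_num) hw.2.1
  have hdiv := hdir 2 L (by norm_num) (odd_L hlam)
  obtain ⟨δ, hδ0, hδ1, X₀, hX₀⟩ := hs (ε / 2) (by positivity)
  have hr : ∀ w ∈ RR 2 L, ∃ x : ZMod w, x ^ 2 + x + lam = 0 := fun w hw =>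
    hroot lam w hlam hw.1 (by have := hw.2.1; norm_num at this; exact this) hw.2.2
  obtain ⟨X₁, hX₁⟩ := hD (RR 2 L) hRp hdiv
    (fun w a b => (a * b) ^ 2 + a * b + lam = 0 ∧ b ^ ((w - 1) / 2) = -1) (by
      intro w hw
      obtain ⟨x₁, hx₁⟩ := hr w hw
      obtain ⟨B, hB0, hBc, hB⟩ := hcls w hw.1 (hR2 w hw) x₁
      refine ⟨B, hB0, hBc, fun b hb => ?_⟩
      obtain ⟨a, ha, hb'⟩ := hB b hb
      exact ⟨a, by rw [ha, hx₁], hb'⟩) δ hδ0 hδ1 (ε / 4) (by positivity)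
  obtain ⟨X₂, hX₂⟩ := hD (RR 2 L) hRp hdiv
    (fun w a b => (a * b) ^ 2 + lam = a * b ∧ b ^ ((w - 1) / 2) = -1) (by
      intro w hw
      obtain ⟨x₁, hx₁⟩ := hr w hw
      obtain ⟨B, hB0, hBc, hB⟩ := hcls w hw.1 (hR2 w hw) (-x₁)
      refine ⟨B, hB0, hBc, fun b hb => ?_⟩
      obtain ⟨a, ha, hb'⟩ := hB b hb
      exact ⟨a, by rw [ha]; linear_combination hx₁, hb'⟩) δ hδ0 hδ1 (ε / 4) (by positivity)
  have hlim : Tendsto (fun X : ℕ => (X : ℝ) ^ δ) atTop atTop :=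
    (tendsto_rpow_atTop hδ0).comp tendsto_natCast_atTop_atTop
  obtain ⟨X₃, hX₃⟩ := eventually_atTop.1 (hlim.eventually_ge_atTop (lam : ℝ))
  refine ⟨max X₀ (max X₁ (max X₂ X₃)), fun X hX => ?_⟩
  simp only [max_le_iff] at hX
  obtain ⟨c0, c1, c2, c3⟩ := hX
  have hb₀ := hX₀ X c0
  have hb₁ := hX₁ X c1
  have hb₂ := hX₂ X c2
  have hb₃ := hX₃ X c3
  set E₁ : Set (ℕ × ℕ) := {x : ℕ × ℕ | 1 ≤ x.1 ∧ x.2.Prime ∧ (X : ℝ) ^ δ < x.2 ∧ x.1 * x.2 ≤ X ∧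
    ∀ w ∈ RR 2 L, ¬ (((x.1 : ZMod w) * (x.2 : ZMod w)) ^ 2 + (x.1 : ZMod w) * (x.2 : ZMod w) +
      (lam : ZMod w) = 0 ∧ (x.2 : ZMod w) ^ ((w - 1) / 2) = -1)} with hE₁
  set E₂ : Set (ℕ × ℕ) := {x : ℕ × ℕ | 1 ≤ x.1 ∧ x.2.Prime ∧ (X : ℝ) ^ δ < x.2 ∧ x.1 * x.2 ≤ X ∧
    ∀ w ∈ RR 2 L, ¬ (((x.1 : ZMod w) * (x.2 : ZMod w)) ^ 2 + (lam : ZMod w) =
      (x.1 : ZMod w) * (x.2 : ZMod w) ∧ (x.2 : ZMod w) ^ ((w - 1) / 2) = -1)} with hE₂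
  set E₀ : Set ℕ := {u : ℕ | 1 ≤ u ∧ u ≤ X ∧
    ∀ p : ℕ, p.Prime → p ∣ u → (p : ℝ) ≤ (X : ℝ) ^ δ} with hE₀
  have hf₀ : E₀.Finite := (Set.finite_Iic X).subset fun u hu => hu.2.1
  have hf₁ : E₁.Finite := (fin_pairs2 X (fun _ => True)).subset
    fun x hx => ⟨hx.1, hx.2.1, trivial, hx.2.2.2.1⟩
  have hf₂ : E₂.Finite := (fin_pairs2 X (fun _ => True)).subset
    fun x hx => ⟨hx.1, hx.2.1, trivial, hx.2.2.2.1⟩
  have hsub : {u : ℕ | 1 ≤ u ∧ u ≤ X ∧ HasSq u lam} ⊆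
      E₀ ∪ (fun x : ℕ × ℕ => x.1 * x.2) '' (E₁ ∪ E₂) := by
    rintro u ⟨hu1, huX, hDS⟩
    by_cases hu0 : u ∈ E₀
    · exact Or.inl hu0
    right
    have hbig : ∃ p : ℕ, p.Prime ∧ p ∣ u ∧ (X : ℝ) ^ δ < p := by
      by_contra hno
      push Not at hno
      exact hu0 ⟨hu1, huX, hno⟩
    obtain ⟨p, hp, ⟨t, ht⟩, hpb⟩ := hbig
    have hut : u = t * p := by rw [ht, mul_comm]
    have ht1 : 1 ≤ t := by
      rcases Nat.eq_zero_or_pos t with h | h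
      · rw [h, zero_mul] at hut
        omega
      · exact h
    have hlp : lam < p := by
      have : (lam : ℝ) < p := lt_of_le_of_lt hb₃ hpb
      exact_mod_cast this
    refine ⟨(t, p), ?_, hut.symm⟩
    by_contra hcon
    rw [Set.mem_union, not_or] at hcon
    obtain ⟨hc₁, hc₂⟩ := hcon
    have hc₁' : ∃ w ∈ RR 2 L, ((t : ZMod w) * (p : ZMod w)) ^ 2 + (t : ZMod w) * (p : ZMod w) +
        (lam : ZMod w) = 0 ∧ (p : ZMod w) ^ ((w - 1) / 2) = -1 := by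
      by_contra hno
      push Not at hno
      exact hc₁ ⟨ht1, hp, hpb, by simp only; rw [← hut]; exact huX,
        fun w hw hP => hno w hw hP.1 hP.2⟩
    have hc₂' : ∃ w ∈ RR 2 L, ((t : ZMod w) * (p : ZMod w)) ^ 2 + (lam : ZMod w) =
        (t : ZMod w) * (p : ZMod w) ∧ (p : ZMod w) ^ ((w - 1) / 2) = -1 := by
      by_contra hno
      push Not at hno
      exact hc₂ ⟨ht1, hp, hpb, by simp only; rw [← hut]; exact huX,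
        fun w hw hP => hno w hw hP.1 hP.2⟩
    obtain ⟨w₁, hw₁, ha₁, hb₁'⟩ := hc₁'
    obtain ⟨w₂, hw₂, ha₂, hb₂'⟩ := hc₂'
    obtain ⟨o₁, ho₁, he₁, -⟩ := half_eq (by norm_num) hw₁.2.1
    obtain ⟨o₂, ho₂, he₂, -⟩ := half_eq (by norm_num) hw₂.2.1
    have hn₁ : (u : ZMod w₁) = (t : ZMod w₁) * (p : ZMod w₁) := by rw [hut]; push_cast; ring
    have hn₂ : (u : ZMod w₂) = (t : ZMod w₂) * (p : ZMod w₂) := by rw [hut]; push_cast; ring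
    rw [← hn₁] at ha₁
    rw [← hn₂] at ha₂
    have hl₁ := not_dvd_lam hlam hw₁.1 hw₁.2.2
    have hl₂ := not_dvd_lam hlam hw₂.1 hw₂.2.2
    have hu₁ : ¬ w₁ ∣ u := by
      intro h
      rw [← ZMod.natCast_eq_zero_iff] at h
      rw [h] at ha₁
      apply hl₁
      rw [← ZMod.natCast_eq_zero_iff]
      linear_combination ha₁
    have hu₂ : ¬ w₂ ∣ u := by
      intro h
      rw [← ZMod.natCast_eq_zero_iff] at h
      rw [h] at ha₂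
      apply hl₂
      rw [← ZMod.natCast_eq_zero_iff]
      linear_combination ha₂
    have hne : w₁ ≠ w₂ := by
      rintro rfl
      have : Fact w₁.Prime := ⟨hw₁.1⟩
      have h2 : (2 : ZMod w₁) * (u : ZMod w₁) = 0 := by linear_combination ha₁ - ha₂
      rcases mul_eq_zero.1 h2 with h | h
      · have h3 : ((2 : ℕ) : ZMod w₁) = 0 := by push_cast; exact h
        rw [ZMod.natCast_eq_zero_iff] at h3
        exact hR2 _ hw₁ ((Nat.prime_dvd_prime_iff_eq hw₁.1 Nat.prime_two).1 h3)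
      · exact hu₁ ((ZMod.natCast_eq_zero_iff _ _).1 h)
    refine hK u lam p (2 ^ (2 - 1) * o₁ * o₂) w₁ w₂ hu1 hlam hp ⟨t, ht⟩ hlp hw₁.1 hw₂.1
      (hR2 _ hw₁) (hR2 _ hw₂) hu₁ hu₂ hl₁ hl₂ ha₁ ha₂ ?_ hDS
    refine Nat.Coprime.mul_dvd_of_dvd_of_dvd ((Nat.coprime_primes hw₁.1 hw₂.1).2 hne) ?_ ?_
    · apply dvd_of_neg_one
      rw [he₁] at hb₁'
      rw [pow_mul, hb₁', ho₂.neg_one_pow]
    · apply dvd_of_neg_one
      rw [he₂] at hb₂'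
      rw [mul_right_comm, pow_mul, hb₂', ho₁.neg_one_pow]
  have hc1 : ({u : ℕ | 1 ≤ u ∧ u ≤ X ∧ HasSq u lam}).ncard ≤ E₀.ncard + (E₁.ncard + E₂.ncard) := by
    refine (Set.ncard_le_ncard hsub (hf₀.union ((hf₁.union hf₂).image _))).trans ?_
    refine (Set.ncard_union_le _ _).trans (Nat.add_le_add_left ?_ _)
    exact (Set.ncard_image_le (hf₁.union hf₂)).trans (Set.ncard_union_le _ _)
  have hc2 : (({u : ℕ | 1 ≤ u ∧ u ≤ X ∧ HasSq u lam}.ncard : ℕ) : ℝ) ≤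
      (E₀.ncard : ℝ) + ((E₁.ncard : ℝ) + (E₂.ncard : ℝ)) := by exact_mod_cast hc1
  linarith

theorem t_QFIN (hK : S_KEYQ) (hD : S_DENS2) (hdir : S_DIR) (hcls : S_CLS) (hroot : S_ROOTQ)
    (hs : S_SMU) : S_QFIN := by
  intro Λ ε hε
  have h1 : ∀ lam : ℕ, ∃ X₀ : ℕ, ∀ X : ℕ, X₀ ≤ X → 1 ≤ lam →
      (({u : ℕ | 1 ≤ u ∧ u ≤ X ∧ HasSq u lam}.ncard : ℕ) : ℝ) ≤ ε / (Λ + 1) * X := by
    intro lam
    by_cases hl : 1 ≤ lam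
    · obtain ⟨X₀, hX₀⟩ := one_lam hK hD hdir hcls hroot hs lam hl (ε / (Λ + 1)) (by positivity)
      exact ⟨X₀, fun X hX _ => hX₀ X hX⟩
    · exact ⟨0, fun X _ h => absurd h hl⟩
  choose Y hY using h1
  refine ⟨∑ lam ∈ range (Λ + 1), Y lam, fun X hX => ?_⟩
  have hf : ∀ lam : ℕ, ({u : ℕ | 1 ≤ u ∧ u ≤ X ∧ HasSq u lam}).Finite := fun lam =>
    (Set.finite_Iic X).subset fun u hu => hu.2.1
  have hsub : {u : ℕ | 1 ≤ u ∧ u ≤ X ∧ ∃ lam : ℕ, 1 ≤ lam ∧ lam ≤ Λ ∧ HasSq u lam} ⊆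
      ⋃ lam ∈ Icc 1 Λ, {u : ℕ | 1 ≤ u ∧ u ≤ X ∧ HasSq u lam} := by
    rintro u ⟨hu1, huX, lam, hl1, hl2, hD⟩
    simp only [Set.mem_iUnion]
    exact ⟨lam, mem_Icc.2 ⟨hl1, hl2⟩, hu1, huX, hD⟩
  have hfin : (⋃ lam ∈ Icc 1 Λ, {u : ℕ | 1 ≤ u ∧ u ≤ X ∧ HasSq u lam}).Finite :=
    (Icc 1 Λ).finite_toSet.biUnion fun lam _ => hf lam
  have h2 : ({u : ℕ | 1 ≤ u ∧ u ≤ X ∧ ∃ lam : ℕ, 1 ≤ lam ∧ lam ≤ Λ ∧ HasSq u lam}).ncard ≤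
      ∑ lam ∈ Icc 1 Λ, ({u : ℕ | 1 ≤ u ∧ u ≤ X ∧ HasSq u lam}).ncard :=
    (Set.ncard_le_ncard hsub hfin).trans (Finset.set_ncard_biUnion_le _ _)
  have h3 : (({u : ℕ | 1 ≤ u ∧ u ≤ X ∧ ∃ lam : ℕ, 1 ≤ lam ∧ lam ≤ Λ ∧ HasSq u lam}.ncard : ℕ) : ℝ) ≤
      ∑ lam ∈ Icc 1 Λ, (({u : ℕ | 1 ≤ u ∧ u ≤ X ∧ HasSq u lam}.ncard : ℕ) : ℝ) := by
    exact_mod_cast h2
  refine h3.trans ?_
  have h4 : ∀ lam ∈ Icc 1 Λ, (({u : ℕ | 1 ≤ u ∧ u ≤ X ∧ HasSq u lam}.ncard : ℕ) : ℝ) ≤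
      ε / (Λ + 1) * X := by
    intro lam hlam
    rw [mem_Icc] at hlam
    have h5 : Y lam ≤ ∑ lam ∈ range (Λ + 1), Y lam :=
      single_le_sum (f := Y) (fun _ _ => Nat.zero_le _) (mem_range.2 (by omega))
    exact hY lam X (by omega) hlam.1
  refine (sum_le_sum h4).trans ?_
  rw [sum_const, nsmul_eq_mul, Nat.card_Icc, Nat.add_sub_cancel]
  have h6 : (Λ : ℝ) * (ε / (Λ + 1) * X) = ε * X * (Λ / (Λ + 1)) := by ring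
  rw [h6]
  have h7 : (Λ : ℝ) / (Λ + 1) ≤ 1 := by
    rw [div_le_one (by positivity)]
    linarith
  have h8 : 0 ≤ ε * (X : ℝ) := by positivity
  nlinarith

end Pool.Agent.H183.SQ
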