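import Pool.Agent.H183.MU.Stm

/-!
# Abelian difference sets with fixed `lam` and square order: statements

Project SQ (helper183), page MP_c38931_co (Hall's finiteness conjecture for symmetric designs). Let
`k = u^2 + lam`. Then `lam v = (k + u)(k - u)`. A prime `p ∣ u`, `p > lam`, is a multiplier. If
`p^j ≡ -1` modulo `w₁ w₂` with odd primes `w₁ ∣ k + u`, `w₂ ∣ k - u` we get a contradiction (Mann's
test for a symmetric image). For almost all `u` there are such `p`, `w₁`, `w₂`.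
Models: project MU (files `Pool/Agent/H183/MU/*.lean`, on main).
-/

set_option autoImplicit false

namespace Pool.Agent.H183.SQ

open Finset Pool.Agent.H183.MU

/-- Some finite abelian group contains a difference set with `k = u^2 + lam` (so of order `u^2`). -/
def HasSq (u lam : ℕ) : Prop :=
  ∃ (G : Type) (_ : CommGroup G) (_ : Fintype G) (_ : DecidableEq G) (D : Finset G),
    D.card = u ^ 2 + lam ∧
    ∀ g : G, g ≠ 1 → ((D ×ˢ D).filter (fun p : G × G => p.1 * p.2⁻¹ = g)).card = lam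

/-- **S_PAR.** The parameters. Proof: count the pairs `(x, y)` of elements of `D` by `x y⁻¹`:
`k^2 = k + lam (v - 1)` (`v = |G| ≥ 1`), so `lam v = k^2 - k + lam = (k + u)(k - u)`. -/
def S_PAR : Prop := ∀ (G : Type) [CommGroup G] [Fintype G] [DecidableEq G] (D : Finset G)
  (k lam u : ℕ), IsDS D k lam → k = u ^ 2 + lam →
    lam * Fintype.card G = (u ^ 2 + lam + u) * (u ^ 2 + lam - u)

/-- **S_TRANS.** A translate whose image in `H` is fixed by `x ↦ x^p`. Proof. Let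
`f x = #{d ∈ D | φ d = x}`. From the hypothesis (with `g`), as `x ↦ x^p` is injective on `G` and `H`,
`f x = f (φ(g)⁻¹ x^p)` for `x ∈ H`. Let `π = ∏_x x^(f x)`. With `y = φ(g)⁻¹ x^p`:
`π^p = ∏_x (x^p)^(f y) = ∏_y (φ(g) y)^(f y) = φ(g)^k π`. Let `c^k = π` (`k` is prime to `|H|`): then
`(c^(p-1))^k = φ(g)^k`, `φ(g) = c^(p-1)`. Choose `c₁ ∈ G` with `φ c₁ = c` and `D' = c₁⁻¹ D`:
`f' x = f (c x)`, `f' (x^p) = f (c x^p) = f (φ(g)⁻¹ c^p x^p) = f (φ(g)⁻¹ (c x)^p) = f (c x) = f' x`. -/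
def S_TRANS : Prop := ∀ (G H : Type) [CommGroup G] [Fintype G] [DecidableEq G] [CommGroup H]
  [Fintype H] [DecidableEq H] (φ : G →* H), Function.Surjective φ → ∀ (D : Finset G)
  (k lam p : ℕ), IsDS D k lam → Nat.Coprime k (Fintype.card H) → Nat.Coprime p (Fintype.card G) →
    1 ≤ p → (∃ g : G, D.image (fun x => x ^ p) = D.image (fun x => g * x)) →
    ∃ D' : Finset G, IsDS D' k lam ∧
      ∀ h : H, (D'.filter (fun x => φ x = h ^ p)).card = (D'.filter (fun x => φ x = h)).card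

/-- **S_KEYQ.** Proof. Suppose `D` is such a set, `k = u^2 + lam`, `v = |G|`, `lam v = (k+u)(k-u)`
(S_PAR). `p` does not divide `k` nor `v`: modulo `p`, `k ≡ lam`, `lam v ≡ lam^2`, `0 < lam < p`. S_MULT
(project MU, `e = 2`: `lam < p < p^2`, `p^2 ∣ u^2 = k - lam`): there is `g` with `D^(p) = g D`.
`w₁ ∣ k + u`, `w₂ ∣ k - u`, both prime to `lam`, so they divide `v`; `w₁ ≠ w₂` because a common prime
would divide `2 u`. There is a surjective `φ : G → H = Multiplicative (ZMod w₁) × Multiplicative (ZMod w₂)`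
(see `Pool/Agent/H183/MU/KEY.lean`: `nilp_quot`, `prod_surj`); `k ≡ -u` modulo `w₁`, `k ≡ u` modulo
`w₂`, so `k` is prime to `|H| = w₁ w₂`. S_TRANS: the image of `D'` is invariant under `x ↦ x^p`, so
under `x ↦ x^(p^j) = x⁻¹` (as `w₁ w₂ ∣ p^j + 1`). S_EVEN (project MU) with `w = w₁ w₂ > 4`, `k = lam + u^2`,
`u` prime to `w`: `w₁ w₂` divides `k + u` or `k - u`. But `w₂ ∤ k + u`, `w₁ ∤ k - u` (else they divide
`2 u`). -/
def S_KEYQ : Prop := ∀ (u lam p j w₁ w₂ : ℕ), 1 ≤ u → 1 ≤ lam → p.Prime → p ∣ u → lam < p →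
  w₁.Prime → w₂.Prime → w₁ ≠ 2 → w₂ ≠ 2 → ¬ w₁ ∣ u → ¬ w₂ ∣ u → ¬ w₁ ∣ lam → ¬ w₂ ∣ lam →
  (u : ZMod w₁) ^ 2 + u + lam = 0 → (u : ZMod w₂) ^ 2 + lam = u → w₁ * w₂ ∣ p ^ j + 1 →
    ¬ HasSq u lam

/-- **S_PAIRS2.** Pairs `(t, p)`, `p > X^δ` prime, `t p ≤ X`, with `(t mod M, p mod M) ∈ S`. Proof as for
`S_PAIRS` (project MU, `Pool/Agent/H183/MU/PAIRS.lean`): for `S = {(a, b)}` and `t` given the number of
`p ≤ N := X/t` (`N ≥ X^δ`) is at most `12/φ(M) · N/log N ≤ 12/φ(M) · (X/t)/(δ/2 · log X)`, and the sum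
of `1/t` over `t ≤ X`, `t ≡ a` modulo `M`, is at most `1 + (1/M)(1 + log X) ≤ (3/M) log X`. -/
def S_PAIRS2 : Prop := ∀ M : ℕ, 1 ≤ M → ∀ δ : ℝ, 0 < δ → δ < 1 → ∃ X₀ : ℕ, ∀ X : ℕ, X₀ ≤ X →
  ∀ S : Finset (ℕ × ℕ),
  (({x : ℕ × ℕ | 1 ≤ x.1 ∧ x.2.Prime ∧ (X : ℝ) ^ δ < x.2 ∧ x.1 * x.2 ≤ X ∧
    (x.1 % M, x.2 % M) ∈ S}.ncard : ℕ) : ℝ) ≤
    (200 / δ) * ((S.card : ℝ) / ((M : ℝ) * (Nat.totient M : ℝ))) * X

/-- **S_DENS2.** Proof as for `S_DENS` (project MU, `Pool/Agent/H183/MU/DENS.lean`) with S_PAIRS2: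
choose the finite set `F ⊆ R` with `exp (-(1/2) ∑ 1/w) ≤ ε δ/400`. (A prime `p > X^δ` is not in `F` for
large `X`.) -/
def S_DENS2 : Prop := ∀ R : Set ℕ, (∀ w ∈ R, w.Prime) →
  ¬ Summable (fun n : ℕ => R.indicator (fun n : ℕ => (1 : ℝ) / n) n) →
  ∀ P : ∀ w : ℕ, ZMod w → ZMod w → Prop,
  (∀ w ∈ R, ∃ B : Finset (ZMod w), (0 : ZMod w) ∉ B ∧ w ≤ 2 * B.card + 1 ∧
    ∀ b ∈ B, ∃ a, P w a b) → ∀ δ : ℝ, 0 < δ → δ < 1 → ∀ ε : ℝ, 0 < ε →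
  ∃ X₀ : ℕ, ∀ X : ℕ, X₀ ≤ X →
  (({x : ℕ × ℕ | 1 ≤ x.1 ∧ x.2.Prime ∧ (X : ℝ) ^ δ < x.2 ∧ x.1 * x.2 ≤ X ∧
    ∀ w ∈ R, ¬ P w x.1 x.2}.ncard : ℕ) : ℝ) ≤ ε * X

/-- **S_ROOTQ.** Proof. `1 - 4 lam = -L` with `L = 4 lam - 1`, `L ≡ 3` modulo `4`. `w ≡ 5` modulo `8` and
`w ≡ 1` modulo `L`: the Jacobi symbols are `(-1/w) = 1`, `(L/w) = (w/L) = (1/L) = 1` (quadratic
reciprocity for Jacobi symbols, `w ≡ 1` modulo `4`), so `-L` is a square modulo `w` and `x^2 + x + lam`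
has a root (`4 (x^2 + x + lam) = (2 x + 1)^2 + L`). -/
def S_ROOTQ : Prop := ∀ lam w : ℕ, 1 ≤ lam → w.Prime → w % 8 = 5 → (4 * lam - 1) ∣ w - 1 →
  ∃ x : ZMod w, x ^ 2 + x + lam = 0

/-- **S_SMU.** Integers without a large prime factor. Proof (Markov): if all prime factors of `u` are
`≤ X^δ` and `u > √X` then `log u = ∑_{p^k ∣ u} log p ≥ (1/2) log X` with all `p ≤ X^δ`;
`∑_{u ≤ X} ∑_{p^k ∣ u, p ≤ X^δ} log p ≤ X ∑_{p ≤ X^δ} log p/(p-1) ≤ X (δ log X + C)` up to a constant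
factor (Mertens or Chebyshev). So at most `√X + 2 X (C δ + C/log X)` such `u`. (See project GL, `S_SMO`
and store file `helper183_GL_SMO.lean`, which has the same sum.) -/
def S_SMU : Prop := ∀ ε : ℝ, 0 < ε → ∃ δ : ℝ, 0 < δ ∧ δ < 1 ∧ ∃ X₀ : ℕ, ∀ X : ℕ, X₀ ≤ X →
  (({u : ℕ | 1 ≤ u ∧ u ≤ X ∧ ∀ p : ℕ, p.Prime → p ∣ u → (p : ℝ) ≤ (X : ℝ) ^ δ}.ncard : ℕ) : ℝ) ≤
    ε * X

/-- **S_QFIN.** Proof. It is enough to treat one `lam`. `R` = the primes `w ≡ 5` modulo `8`, `w ≡ 1` modulo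
`4 lam - 1` (S_DIR, S_CLS of project MU). `u = t p`, `p > X^δ` by S_SMU; S_DENS2 twice, S_KEYQ. -/
def S_QFIN : Prop := ∀ Λ : ℕ, ∀ ε : ℝ, 0 < ε → ∃ X₀ : ℕ, ∀ X : ℕ, X₀ ≤ X →
  (({u : ℕ | 1 ≤ u ∧ u ≤ X ∧ ∃ lam : ℕ, 1 ≤ lam ∧ lam ≤ Λ ∧ HasSq u lam}.ncard : ℕ) : ℝ) ≤ ε * X

end Pool.Agent.H183.SQ
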