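import Pool.Agent.H183.SQ.Stm
import Pool.Graph.R_seed8.TH66.SG.Nilp

/-!
# S_KEYQ: the exclusion for square orders
(adapted by helper722 from `Pool/Agent/H183/MU/KEY.lean` of helper183)
-/

set_option autoImplicit false

namespace Pool.Agent.H183.SQ

open Finset Pool.Agent.H183.MU

namespace KEYQ

/-- Iterates. -/
lemma iter {G H : Type} [CommGroup G] [DecidableEq G] [CommGroup H] [DecidableEq H]
    {D : Finset G} (φ : G →* H) {p : ℕ}
    (h : ∀ y : H, (D.filter (fun x => φ x = y ^ p)).card = (D.filter (fun x => φ x = y)).card)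
    (j : ℕ) (y : H) :
    (D.filter (fun x => φ x = y ^ (p ^ j))).card = (D.filter (fun x => φ x = y)).card := by
  induction j with
  | zero => simp
  | succ j ih =>
    rw [pow_succ, pow_mul, h, ih]

end KEYQ

/-- **S_KEYQ** -/
theorem t_KEYQ (h0 : S_PAR) (h1 : Pool.Agent.H183.MU.S_MULT) (h2 : S_TRANS)
    (h3 : Pool.Agent.H183.MU.S_EVEN) : S_KEYQ := by
  intro u lam p j w₁ w₂ hu hl hp hpu hlp hw1 hw2 ho1 ho2 hu1 hu2 hl1 hl2 hz1 hz2 hj h
  obtain ⟨G, hG, hGf, hGd, D, hk, hlam⟩ := h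
  have : Fact w₁.Prime := ⟨hw1⟩
  have : Fact w₂.Prime := ⟨hw2⟩
  have hDS : IsDS D (u ^ 2 + lam) lam := ⟨hk, hlam⟩
  have hpar := h0 G D (u ^ 2 + lam) lam u hDS rfl
  have huk : u ≤ u ^ 2 + lam := by nlinarith
  obtain ⟨d, hd⟩ : ∃ d, u ^ 2 + lam = d + u := ⟨u ^ 2 + lam - u, by omega⟩
  have hd' : u ^ 2 + lam - u = d := by omega
  rw [hd'] at hpar
  have hpk : ¬ p ∣ u ^ 2 + lam := by
    intro h
    have h5 := (Nat.dvd_add_right (Dvd.dvd.pow hpu two_ne_zero)).1 h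
    exact absurd (Nat.le_of_dvd (by omega) h5) (by omega)
  have hpG : ¬ p ∣ Fintype.card G := by
    intro h
    have h5 : p ∣ (u ^ 2 + lam + u) * d := hpar ▸ h.mul_left lam
    rcases (Nat.Prime.dvd_mul hp).1 h5 with h6 | h6
    · exact hpk ((Nat.dvd_add_left hpu).1 h6)
    · apply hpk
      rw [hd]
      exact dvd_add h6 hpu
  have hlk : lam < u ^ 2 + lam := by
    have : 0 < u ^ 2 := by positivity
    omega
  have hdvd : p ^ 2 ∣ u ^ 2 + lam - lam := by
    rw [Nat.add_sub_cancel]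
    exact pow_dvd_pow_of_dvd hpu 2
  have hlt : lam < p ^ 2 := by
    have := hp.two_le
    nlinarith
  have hg := h1 G D (u ^ 2 + lam) lam p 2 hDS hp hpG hpk hlk hdvd hlt
  -- residues
  have two_ne : ∀ (w : ℕ) (_ : Fact w.Prime), w ≠ 2 → (2 : ZMod w) ≠ 0 := by
    intro w hw h2 h0
    have : ((2 : ℕ) : ZMod w) = 0 := by exact_mod_cast h0
    rw [ZMod.natCast_eq_zero_iff] at this
    exact h2 ((Nat.prime_dvd_prime_iff_eq hw.out Nat.prime_two).1 this)
  have une : ∀ (w : ℕ) (_ : Fact w.Prime), ¬ w ∣ u → (u : ZMod w) ≠ 0 := by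
    intro w hw h h0
    exact h ((ZMod.natCast_eq_zero_iff _ _).1 h0)
  have hA1 : w₁ ∣ u ^ 2 + lam + u := by
    rw [← ZMod.natCast_eq_zero_iff]
    push_cast
    linear_combination hz1
  have hA2 : w₂ ∣ d := by
    rw [← ZMod.natCast_eq_zero_iff]
    have h5 : ((u ^ 2 + lam : ℕ) : ZMod w₂) = ((d + u : ℕ) : ZMod w₂) := by rw [hd]
    push_cast at h5
    linear_combination hz2 - h5
  have h12 : w₁ ≠ w₂ := by
    rintro rfl
    have h5 : (u : ZMod w₁) * 2 = 0 := by linear_combination hz1 - hz2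
    rcases mul_eq_zero.1 h5 with h6 | h6
    · exact une w₁ inferInstance hu1 h6
    · exact two_ne w₁ inferInstance ho1 h6
  have hv1 : w₁ ∣ Nat.card G := by
    rw [Nat.card_eq_fintype_card]
    have h5 : w₁ ∣ lam * Fintype.card G := hpar ▸ hA1.mul_right d
    exact ((Nat.Prime.dvd_mul hw1).1 h5).resolve_left hl1
  have hv2 : w₂ ∣ Nat.card G := by
    rw [Nat.card_eq_fintype_card]
    have h5 : w₂ ∣ lam * Fintype.card G := hpar ▸ hA2.mul_left (u ^ 2 + lam + u)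
    exact ((Nat.Prime.dvd_mul hw2).1 h5).resolve_left hl2
  -- the quotients
  obtain ⟨φ, hφ⟩ := Pool.Agent.TH66.SG.nilp_quot G w₁ hv1
  obtain ⟨ψ, hψ⟩ := Pool.Agent.TH66.SG.nilp_quot G w₂ hv2
  have hsurj := Pool.Agent.TH66.SG.prod_surj G w₁ w₂ h12 φ ψ hφ hψ
  have hcardH : Fintype.card (Multiplicative (ZMod w₁) × Multiplicative (ZMod w₂)) = w₁ * w₂ := by
    rw [Fintype.card_prod]
    simp [ZMod.card]
  have hkw1 : Nat.Coprime (u ^ 2 + lam) w₁ := by
    rw [Nat.coprime_comm, Nat.Prime.coprime_iff_not_dvd hw1]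
    intro h
    exact hu1 ((Nat.dvd_add_right h).1 hA1)
  have hkw2 : Nat.Coprime (u ^ 2 + lam) w₂ := by
    rw [Nat.coprime_comm, Nat.Prime.coprime_iff_not_dvd hw2, hd]
    intro h
    exact hu2 ((Nat.dvd_add_right hA2).1 h)
  have hcopk : Nat.Coprime (u ^ 2 + lam)
      (Fintype.card (Multiplicative (ZMod w₁) × Multiplicative (ZMod w₂))) := by
    rw [hcardH]
    exact Nat.Coprime.mul_right hkw1 hkw2
  have hcop2 : Nat.Coprime p (Fintype.card G) := (Nat.Prime.coprime_iff_not_dvd hp).2 hpG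
  obtain ⟨D', hDS', hfix⟩ := h2 G _ (φ.prod ψ) hsurj D (u ^ 2 + lam) lam p hDS hcopk hcop2
    hp.one_lt.le hg
  have hinv : ∀ y : Multiplicative (ZMod w₁) × Multiplicative (ZMod w₂), y ^ (p ^ j) = y⁻¹ := by
    intro y
    rw [eq_inv_iff_mul_eq_one, ← pow_succ]
    obtain ⟨c, hc⟩ := hj
    rw [hc, pow_mul]
    have : y ^ (w₁ * w₂) = 1 := by
      rw [← hcardH]
      exact pow_card_eq_one
    rw [this, one_pow]
  have hsym : ∀ y : Multiplicative (ZMod w₁) × Multiplicative (ZMod w₂),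
      (D'.filter (fun x => (φ.prod ψ) x = y⁻¹)).card =
        (D'.filter (fun x => (φ.prod ψ) x = y)).card := by
    intro y
    have := KEYQ.iter (φ.prod ψ) hfix j y
    rwa [hinv] at this
  have hw1' : 3 ≤ w₁ := by
    have := hw1.two_le
    omega
  have hw2' : 3 ≤ w₂ := by
    have := hw2.two_le
    omega
  have h4w : 4 < w₁ * w₂ := by nlinarith
  have hcopu : ∀ w : ℕ, w.Prime → ¬ w ∣ u → Nat.Coprime u w := by
    intro w hw h
    rwa [Nat.coprime_comm, Nat.Prime.coprime_iff_not_dvd hw]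
  have hcu : Nat.Coprime u (w₁ * w₂) :=
    Nat.Coprime.mul_right (hcopu w₁ hw1 hu1) (hcopu w₂ hw2 hu2)
  have hM := h3 G _ (φ.prod ψ) hsurj D' (u ^ 2 + lam) lam u (w₁ * w₂) hDS' (by ring) hcardH h4w
    (by omega) hcu hsym
  rcases hM with hM | hM
  · -- contradiction modulo `w₂`
    have h5 : (w₂ : ℤ) ∣ ((u ^ 2 + lam : ℕ) : ℤ) + u :=
      (Dvd.intro_left (w₁ : ℤ) (by push_cast; rfl)).trans hM
    have h6 := (ZMod.intCast_zmod_eq_zero_iff_dvd _ w₂).2 h5
    push_cast at h6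
    have h7 : (u : ZMod w₂) * 2 = 0 := by linear_combination h6 - hz2
    rcases mul_eq_zero.1 h7 with h8 | h8
    · exact une w₂ inferInstance hu2 h8
    · exact two_ne w₂ inferInstance ho2 h8
  · -- contradiction modulo `w₁`
    have h5 : (w₁ : ℤ) ∣ ((u ^ 2 + lam : ℕ) : ℤ) - u :=
      (Dvd.intro _ (by push_cast; rfl)).trans hM
    have h6 := (ZMod.intCast_zmod_eq_zero_iff_dvd _ w₁).2 h5
    push_cast at h6
    have h7 : (u : ZMod w₁) * 2 = 0 := by linear_combination hz1 - h6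
    rcases mul_eq_zero.1 h7 with h8 | h8
    · exact une w₁ inferInstance hu1 h8
    · exact two_ne w₁ inferInstance ho1 h8

end Pool.Agent.H183.SQ
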