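import Pool.Agent.H183.SQ.Stm

/-!
# Project SQ, task TRANS: a translate whose image is invariant under the multiplier
-/

set_option autoImplicit false

namespace Pool.Agent.H183.SQ

open Finset Pool.Agent.H183.MU

namespace TRANS

variable {G H : Type} [CommGroup G] [Fintype G] [DecidableEq G] [CommGroup H] [Fintype H]
  [DecidableEq H]

theorem pow_inj (K : Type) [CommGroup K] [Fintype K] {p : ℕ} (hp : Nat.Coprime p (Fintype.card K)) :
    Function.Bijective (fun x : K => x ^ p) := by
  have h : (Nat.card K).Coprime p := by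
    rw [Nat.card_eq_fintype_card]
    exact hp.symm
  exact h.pow_left_bijective

omit [Fintype G] [Fintype H] in
theorem card_f (φ : G →* H) (D : Finset G) (f : G → G) (hf : Function.Injective f) (b : H) :
    ((D.image f).filter (fun x => φ x = b)).card = (D.filter (fun x => φ (f x) = b)).card := by
  rw [filter_image, card_image_of_injective _ hf]

theorem ds_translate {D : Finset G} {k lam : ℕ} (h : IsDS D k lam) (c : G) :
    IsDS (D.image (fun x => c⁻¹ * x)) k lam := by
  refine ⟨?_, fun g hg => ?_⟩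
  · rw [card_image_of_injective _ (mul_right_injective c⁻¹)]
    exact h.1
  · rw [← h.2 g hg]
    refine card_nbij' (fun p => (c * p.1, c * p.2)) (fun p => (c⁻¹ * p.1, c⁻¹ * p.2))
      ?_ ?_ ?_ ?_
    · intro p hp
      rw [mem_coe, mem_filter, mem_product, mem_image, mem_image] at hp
      obtain ⟨⟨⟨x, hx, hx1⟩, ⟨y, hy, hy1⟩⟩, h1⟩ := hp
      rw [mem_coe, mem_filter, mem_product]
      refine ⟨⟨?_, ?_⟩, ?_⟩
      · change c * p.1 ∈ D
        rw [← hx1, mul_inv_cancel_left]
        exact hx
      · change c * p.2 ∈ D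
        rw [← hy1, mul_inv_cancel_left]
        exact hy
      · change c * p.1 * (c * p.2)⁻¹ = g
        rw [← h1, mul_inv, mul_mul_mul_comm, mul_inv_cancel, one_mul]
    · intro p hp
      rw [mem_coe, mem_filter, mem_product] at hp
      rw [mem_coe, mem_filter, mem_product]
      refine ⟨⟨mem_image_of_mem _ hp.1.1, mem_image_of_mem _ hp.1.2⟩, ?_⟩
      change c⁻¹ * p.1 * (c⁻¹ * p.2)⁻¹ = g
      rw [← hp.2, mul_inv, mul_mul_mul_comm, mul_inv_cancel, one_mul]
    · intro p _
      change (c⁻¹ * (c * p.1), c⁻¹ * (c * p.2)) = p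
      rw [inv_mul_cancel_left, inv_mul_cancel_left]
    · intro p _
      change (c * (c⁻¹ * p.1), c * (c⁻¹ * p.2)) = p
      rw [mul_inv_cancel_left, mul_inv_cancel_left]

end TRANS

open TRANS in
theorem t_TRANS : S_TRANS := by
  intro G H _ _ _ _ _ _ φ hφ D k lam p hD hk hp hp1 hg
  obtain ⟨g, hg⟩ := hg
  have hHG : Fintype.card H ∣ Fintype.card G := by
    rw [← Nat.card_eq_fintype_card, ← Nat.card_eq_fintype_card]
    exact Subgroup.card_dvd_of_surjective φ hφ
  have hpH : Nat.Coprime p (Fintype.card H) := hp.coprime_dvd_right hHG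
  have iG := (pow_inj G hp).injective
  have iH := (pow_inj H hpH).injective
  have iK := pow_inj H hk
  have ig : Function.Injective (fun x : G => g * x) := mul_right_injective g
  -- the fibres
  have hf : ∀ x : H, (D.filter (fun d => φ d = x)).card =
      (D.filter (fun d => φ d = (φ g)⁻¹ * x ^ p)).card := by
    intro x
    have e1 := card_f φ D (fun x => x ^ p) iG (x ^ p)
    rw [hg, card_f φ D (fun x => g * x) ig (x ^ p)] at e1
    have e2 : D.filter (fun d => φ (g * d) = x ^ p) =
        D.filter (fun d => φ d = (φ g)⁻¹ * x ^ p) := by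
      refine filter_congr fun d _ => ?_
      rw [map_mul, eq_inv_mul_iff_mul_eq]
    have e3 : D.filter (fun d => φ (d ^ p) = x ^ p) = D.filter (fun d => φ d = x) := by
      refine filter_congr fun d _ => ?_
      rw [map_pow]
      exact ⟨fun h => iH h, fun h => by rw [h]⟩
    rw [e2, e3] at e1
    exact e1.symm
  -- the product of the elements
  have hP : (∏ d ∈ D, φ d) ^ p = φ g ^ k * ∏ d ∈ D, φ d := by
    have e1 : ∏ e ∈ D.image (fun x => x ^ p), φ e = (∏ d ∈ D, φ d) ^ p := by
      rw [prod_image iG.injOn, ← prod_pow]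
      exact prod_congr rfl fun d _ => map_pow φ d p
    have e2 : ∏ e ∈ D.image (fun x => g * x), φ e = φ g ^ k * ∏ d ∈ D, φ d := by
      rw [prod_image ig.injOn, ← hD.1, ← prod_const, ← prod_mul_distrib]
      exact prod_congr rfl fun d _ => map_mul φ g d
    rw [← e1, hg, e2]
  obtain ⟨c, hc⟩ := iK.surjective (∏ d ∈ D, φ d)
  have hc' : c ^ k = ∏ d ∈ D, φ d := hc
  have hcg : c ^ (p - 1) = φ g := by
    refine iK.injective ?_
    have e1 : (c ^ (p - 1)) ^ k * c ^ k = φ g ^ k * c ^ k := by
      rw [← mul_pow, ← pow_succ, Nat.sub_add_cancel hp1, ← pow_mul, mul_comm p k, pow_mul, hc', hP]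
    exact mul_right_cancel e1
  obtain ⟨c₁, hc₁⟩ := hφ c
  refine ⟨D.image (fun x => c₁⁻¹ * x), ds_translate hD c₁, fun h => ?_⟩
  have hfib : ∀ h : H, ((D.image (fun x => c₁⁻¹ * x)).filter (fun x => φ x = h)).card =
      (D.filter (fun d => φ d = c * h)).card := by
    intro h
    rw [card_f φ D (fun x => c₁⁻¹ * x) (mul_right_injective c₁⁻¹) h]
    congr 1
    refine filter_congr fun d _ => ?_
    rw [map_mul, map_inv, hc₁, inv_mul_eq_iff_eq_mul]
  rw [hfib, hfib, hf (c * h)]
  have e : (φ g)⁻¹ * (c * h) ^ p = c * h ^ p := by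
    rw [inv_mul_eq_iff_eq_mul, mul_pow, ← mul_assoc, ← hcg, ← pow_succ, Nat.sub_add_cancel hp1]
  rw [e]

end Pool.Agent.H183.SQ
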