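import Pool.Agent.H183.SQ.Stm

/-!
# Project SQ: the density lemma (S_DENS2)
-/

set_option autoImplicit false

namespace Pool.Agent.H183.SQ

open Finset

namespace DENS2

theorem exF (R : Set ℕ) (hdiv : ¬ Summable (fun n : ℕ => R.indicator (fun n : ℕ => (1 : ℝ) / n) n))
    (δ : ℝ) (hδ : 0 < δ) : ∃ F : Finset ℕ, (∀ r ∈ F, r ∈ R) ∧
      Real.exp (-(1 / 2) * ∑ r ∈ F, (1 : ℝ) / r) ≤ δ := by
  classical
  have h1 : ∃ F : Finset ℕ, (-2 * Real.log δ) ≤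
      ∑ r ∈ F, R.indicator (fun n : ℕ => (1 : ℝ) / n) r := by
    by_contra hcon
    push Not at hcon
    apply hdiv
    refine summable_of_sum_le (fun r => ?_) (fun F => (hcon F).le)
    exact Set.indicator_nonneg (fun n _ => by positivity) r
  obtain ⟨F, hF⟩ := h1
  refine ⟨F.filter (· ∈ R), fun r hr => (mem_filter.mp hr).2, ?_⟩
  have h2 : ∑ r ∈ F.filter (· ∈ R), (1 : ℝ) / r =
      ∑ r ∈ F, R.indicator (fun n : ℕ => (1 : ℝ) / n) r := by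
    rw [sum_filter]
    apply sum_congr rfl
    intro r _
    simp only [Set.indicator_apply]
  rw [h2]
  calc Real.exp (-(1 / 2) * ∑ r ∈ F, R.indicator (fun n : ℕ => (1 : ℝ) / n) r) ≤
        Real.exp (Real.log δ) := Real.exp_le_exp.mpr (by linarith)
    _ = δ := Real.exp_log hδ

theorem cast_mod {M w : ℕ} (h : w ∣ M) (a : ℕ) : ((a % M : ℕ) : ZMod w) = (a : ZMod w) := by
  rw [ZMod.natCast_eq_natCast_iff']
  exact Nat.mod_mod_of_dvd a h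

end DENS2

theorem t_DENS2 (h1 : Pool.Agent.H183.MU.S_CNT) (h2 : S_PAIRS2) : S_DENS2 := by
  classical
  intro R hR hdiv P hP δ hδ hδ1 ε hε
  obtain ⟨F, hFR, hF⟩ := DENS2.exF R hdiv (ε * δ / 400) (by positivity)
  obtain ⟨M, hM⟩ : ∃ M, M = ∏ w ∈ F, w := ⟨_, rfl⟩
  have hM1 : 1 ≤ M := by
    rw [hM]
    exact Nat.succ_le_of_lt (Finset.prod_pos (fun r hr => (hR r (hFR r hr)).pos))
  have hcnt := h1 F (fun w hw => hR w (hFR w hw)) P (fun w hw => hP w (hFR w hw)) M hM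
  obtain ⟨C, hC⟩ : ∃ C : Set (ℕ × ℕ), C = {x : ℕ × ℕ | x.1 < M ∧ x.2 < M ∧
    ∀ w ∈ F, (x.2 : ZMod w) ≠ 0 ∧ ¬ P w x.1 x.2} := ⟨_, rfl⟩
  rw [← hC] at hcnt
  have hCfin : C.Finite := by
    refine Set.Finite.subset ((range M) ×ˢ (range M)).finite_toSet ?_
    intro x hx
    rw [hC] at hx
    rw [mem_coe, mem_product, mem_range, mem_range]
    exact ⟨hx.1, hx.2.1⟩
  obtain ⟨X₁, hX₁⟩ := h2 M hM1 δ hδ hδ1
  obtain ⟨X₂, hX₂⟩ : ∃ X₂ : ℕ, ∀ X : ℕ, X₂ ≤ X → (M : ℝ) ≤ (X : ℝ) ^ δ := by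
    have h3 := ((tendsto_rpow_atTop hδ).comp tendsto_natCast_atTop_atTop).eventually_ge_atTop
      (M : ℝ)
    obtain ⟨X₂, h4⟩ := Filter.eventually_atTop.1 h3
    exact ⟨X₂, fun X hX => h4 X hX⟩
  refine ⟨max X₁ X₂, fun X hX => ?_⟩
  have hp := hX₁ X (le_trans (le_max_left _ _) hX) hCfin.toFinset
  have hMX := hX₂ X (le_trans (le_max_right _ _) hX)
  have hMφ : (0 : ℝ) < (M : ℝ) * (Nat.totient M : ℝ) := by
    have h3 : 0 < Nat.totient M := Nat.totient_pos.2 hM1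
    have h4 : (0 : ℝ) < Nat.totient M := by exact_mod_cast h3
    have h5 : (0 : ℝ) < M := by exact_mod_cast hM1
    positivity
  have hX0 : (0 : ℝ) ≤ X := Nat.cast_nonneg X
  have hS : (hCfin.toFinset.card : ℝ) / ((M : ℝ) * (Nat.totient M : ℝ)) ≤ ε * δ / 400 := by
    rw [div_le_iff₀ hMφ, ← Set.ncard_eq_toFinset_card C hCfin]
    exact hcnt.trans (mul_le_mul_of_nonneg_right hF hMφ.le)
  obtain ⟨A, hA⟩ : ∃ A : Set (ℕ × ℕ), A = {x : ℕ × ℕ | 1 ≤ x.1 ∧ x.2.Prime ∧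
    (X : ℝ) ^ δ < x.2 ∧ x.1 * x.2 ≤ X ∧ (x.1 % M, x.2 % M) ∈ hCfin.toFinset} := ⟨_, rfl⟩
  rw [← hA] at hp
  have hAfin : A.Finite := by
    refine Set.Finite.subset ((range (X + 1)) ×ˢ (range (X + 1))).finite_toSet ?_
    intro x hx
    rw [hA] at hx
    obtain ⟨a1, a2, a3, a4, -⟩ := hx
    rw [mem_coe, mem_product, mem_range, mem_range]
    have h3 := a2.pos
    have h4 : x.2 ≤ X := le_trans (Nat.le_mul_of_pos_left _ a1) a4
    have h5 : x.1 ≤ X := le_trans (Nat.le_mul_of_pos_right _ h3) a4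
    exact ⟨by omega, by omega⟩
  have hsub : {x : ℕ × ℕ | 1 ≤ x.1 ∧ x.2.Prime ∧ (X : ℝ) ^ δ < x.2 ∧ x.1 * x.2 ≤ X ∧
      ∀ w ∈ R, ¬ P w x.1 x.2} ⊆ A := by
    rintro x ⟨a1, a2, a3, a4, a5⟩
    have hxM : M < x.2 := by
      have h3 : (M : ℝ) < x.2 := lt_of_le_of_lt hMX a3
      exact_mod_cast h3
    have hxF : x.2 ∉ F := by
      intro hxF
      have h3 : x.2 ≤ M := Nat.le_of_dvd (by omega) (by
        rw [hM]
        exact dvd_prod_of_mem _ hxF)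
      omega
    rw [hA]
    refine ⟨a1, a2, a3, a4, ?_⟩
    rw [Set.Finite.mem_toFinset, hC]
    refine ⟨Nat.mod_lt _ (by omega), Nat.mod_lt _ (by omega), fun w hw => ?_⟩
    have hwM : w ∣ M := by
      rw [hM]
      exact dvd_prod_of_mem _ hw
    have e1 := DENS2.cast_mod hwM x.1
    have e2 := DENS2.cast_mod hwM x.2
    change (((x.2 % M : ℕ) : ZMod w) ≠ 0 ∧ ¬ P w ((x.1 % M : ℕ) : ZMod w)
      ((x.2 % M : ℕ) : ZMod w))
    rw [e1, e2]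
    refine ⟨?_, a5 w (hFR w hw)⟩
    intro h0
    rw [ZMod.natCast_eq_zero_iff] at h0
    have h3 := (Nat.prime_dvd_prime_iff_eq (hR w (hFR w hw)) a2).1 h0
    exact hxF (h3 ▸ hw)
  have hle : (({x : ℕ × ℕ | 1 ≤ x.1 ∧ x.2.Prime ∧ (X : ℝ) ^ δ < x.2 ∧ x.1 * x.2 ≤ X ∧
      ∀ w ∈ R, ¬ P w x.1 x.2}.ncard : ℕ) : ℝ) ≤ (A.ncard : ℝ) := by
    exact_mod_cast Set.ncard_le_ncard hsub hAfin
  have h9 : (200 / δ) * ((hCfin.toFinset.card : ℝ) / ((M : ℝ) * (Nat.totient M : ℝ))) * X ≤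
      ε * X := by
    refine mul_le_mul_of_nonneg_right ?_ hX0
    calc (200 / δ) * ((hCfin.toFinset.card : ℝ) / ((M : ℝ) * (Nat.totient M : ℝ))) ≤
        (200 / δ) * (ε * δ / 400) := mul_le_mul_of_nonneg_left hS (by positivity)
      _ = ε / 2 := by
        field_simp
        ring
      _ ≤ ε := by linarith
  linarith

end Pool.Agent.H183.SQ
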