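import Pool.Agent.H183.SQ.Stm
import Pool.Agent.H183.MU.PAIRS

set_option autoImplicit false

/-!
# Project SQ (helper183), part PAIRS2 (helper142): pairs `(t, p)` in residue classes, `p > X^δ`
-/

namespace Pool.Agent.H183.SQ

open Finset Pool.Agent.H183.MU

namespace PAIRS2

/-- the count for one pair of classes -/
theorem one_class {N₁ : ℕ}
    (hN₁ : ∀ (M : ℕ) (b : Finset ℕ), 1 ≤ M → ∀ N : ℕ, N₁ * M ≤ N → M ^ 2 ≤ N →
      4 ≤ N → ((((range (N + 1)).filter (fun p : ℕ => p.Prime ∧ p % M ∈ b)).card : ℕ) : ℝ) ≤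
        12 * ((b.card : ℝ) / Nat.totient M) * (N / Real.log N))
    {M : ℕ} (hM : 1 ≤ M) {X : ℕ} {δ : ℝ} (hδ : 0 < δ)
    (h1 : ((N₁ * M + M ^ 2 + 4 : ℕ) : ℝ) ≤ (X : ℝ) ^ δ) (hlog : (M : ℝ) + 1 ≤ Real.log X)
    (a b : ℕ) :
    ∑ t ∈ (Icc 1 X).filter (fun t => t % M = a ∧ (X : ℝ) ^ δ ≤ ((X / t : ℕ) : ℝ)),
      ((((range (X / t + 1)).filter (fun p : ℕ => p.Prime ∧ p % M ∈ ({b} : Finset ℕ))).card : ℕ) : ℝ) ≤
      36 / δ * (X / ((M : ℝ) * (Nat.totient M : ℝ))) := by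
  have hMR : (1 : ℝ) ≤ M := by exact_mod_cast hM
  have hφ : (0 : ℝ) < (Nat.totient M : ℝ) := by exact_mod_cast Nat.totient_pos.2 hM
  have hL : 0 < Real.log X := by linarith
  have hX0 : (0 : ℝ) < X := by
    by_contra h
    have h2 : (X : ℝ) = 0 := le_antisymm (not_lt.1 h) (Nat.cast_nonneg X)
    rw [h2, Real.log_zero] at hL
    exact lt_irrefl _ hL
  have hterm : ∀ t ∈ (Icc 1 X).filter (fun t => t % M = a ∧ (X : ℝ) ^ δ ≤ ((X / t : ℕ) : ℝ)),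
      ((((range (X / t + 1)).filter (fun p : ℕ => p.Prime ∧ p % M ∈ ({b} : Finset ℕ))).card : ℕ) : ℝ) ≤
        (12 / (Nat.totient M : ℝ) * (X / (δ * Real.log X))) * (1 / t) := by
    intro t ht
    rw [mem_filter, mem_Icc] at ht
    obtain ⟨⟨ht0, -⟩, -, hN⟩ := ht
    have ht1 : (1 : ℝ) ≤ t := by exact_mod_cast ht0
    have hNn : N₁ * M + M ^ 2 + 4 ≤ X / t := by exact_mod_cast h1.trans hN
    have hc := hN₁ M {b} hM (X / t) (by omega) (by omega) (by omega)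
    rw [card_singleton, Nat.cast_one] at hc
    have hlN : δ * Real.log X ≤ Real.log ((X / t : ℕ) : ℝ) := by
      rw [← Real.log_rpow hX0]
      exact Real.log_le_log (by positivity) hN
    have hNX : ((X / t : ℕ) : ℝ) ≤ (X : ℝ) / t := Nat.cast_div_le
    have h5 : ((X / t : ℕ) : ℝ) / Real.log ((X / t : ℕ) : ℝ) ≤
        ((X : ℝ) / t) / (δ * Real.log X) :=
      div_le_div₀ (div_nonneg hX0.le (by linarith)) hNX (by positivity) hlN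
    refine hc.trans ?_
    calc 12 * (1 / (Nat.totient M : ℝ)) * (((X / t : ℕ) : ℝ) / Real.log ((X / t : ℕ) : ℝ))
        ≤ 12 * (1 / (Nat.totient M : ℝ)) * (((X : ℝ) / t) / (δ * Real.log X)) :=
          mul_le_mul_of_nonneg_left h5 (by positivity)
      _ = (12 / (Nat.totient M : ℝ) * (X / (δ * Real.log X))) * (1 / t) := by ring
  refine (sum_le_sum hterm).trans ?_
  rw [← mul_sum]
  have hh : ∑ t ∈ (Icc 1 X).filter (fun t => t % M = a ∧ (X : ℝ) ^ δ ≤ ((X / t : ℕ) : ℝ)),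
      (1 : ℝ) / t ≤ 1 + (1 / (M : ℝ)) * (1 + Real.log X) := by
    refine le_trans ?_ (Pool.Agent.H183.MU.PAIRS.harm M a X hM)
    apply sum_le_sum_of_subset_of_nonneg
    · intro t ht
      rw [mem_filter] at ht ⊢
      exact ⟨ht.1, ht.2.1⟩
    · intro t _ _
      positivity
  have h6 : 1 + (1 / (M : ℝ)) * (1 + Real.log X) ≤ 3 / (M : ℝ) * Real.log X := by
    have h7 : (1 : ℝ) = (1 / (M : ℝ)) * M := by field_simp
    have h8 : (1 / (M : ℝ)) * M + (1 / (M : ℝ)) * (1 + Real.log X) ≤ 3 / (M : ℝ) * Real.log X := by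
      have h9 : (1 / (M : ℝ)) * (M + (1 + Real.log X)) ≤ (1 / (M : ℝ)) * (3 * Real.log X) :=
        mul_le_mul_of_nonneg_left (by linarith) (by positivity)
      calc (1 / (M : ℝ)) * M + (1 / (M : ℝ)) * (1 + Real.log X)
          = (1 / (M : ℝ)) * (M + (1 + Real.log X)) := by ring
        _ ≤ (1 / (M : ℝ)) * (3 * Real.log X) := h9
        _ = 3 / (M : ℝ) * Real.log X := by ring
    linarith
  calc (12 / (Nat.totient M : ℝ) * (X / (δ * Real.log X))) *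
        ∑ t ∈ (Icc 1 X).filter (fun t => t % M = a ∧ (X : ℝ) ^ δ ≤ ((X / t : ℕ) : ℝ)), (1 : ℝ) / t
      ≤ (12 / (Nat.totient M : ℝ) * (X / (δ * Real.log X))) * (3 / (M : ℝ) * Real.log X) :=
        mul_le_mul_of_nonneg_left (hh.trans h6) (by positivity)
    _ = 36 / δ * (X / ((M : ℝ) * (Nat.totient M : ℝ))) := by
        field_simp
        ring

end PAIRS2

open PAIRS2

theorem t_PAIRS2 : S_PAIRS2 := by
  classical
  obtain ⟨N₁, hN₁⟩ := Pool.Agent.TH888.B1.primes_in_classes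
  intro M hM δ hδ hδ1
  obtain ⟨K, hK⟩ : ∃ K : ℕ, K = N₁ * M + M ^ 2 + 4 := ⟨_, rfl⟩
  refine ⟨⌈(K : ℝ) ^ (1 / δ)⌉₊ + ⌈Real.exp ((M : ℝ) + 1)⌉₊ + 1, fun X hX S => ?_⟩
  have hXa : (K : ℝ) ^ (1 / δ) ≤ X := by
    have h5 : ⌈(K : ℝ) ^ (1 / δ)⌉₊ ≤ X := by omega
    exact (Nat.le_ceil _).trans (by exact_mod_cast h5)
  have hXb : Real.exp ((M : ℝ) + 1) ≤ X := by
    have h5 : ⌈Real.exp ((M : ℝ) + 1)⌉₊ ≤ X := by omega
    exact (Nat.le_ceil _).trans (by exact_mod_cast h5)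
  have hX0 : (0 : ℝ) < X := (Real.exp_pos _).trans_le hXb
  have h1 : ((N₁ * M + M ^ 2 + 4 : ℕ) : ℝ) ≤ (X : ℝ) ^ δ := by
    rw [← hK]
    have h2 : ((K : ℝ) ^ (1 / δ)) ^ δ ≤ (X : ℝ) ^ δ :=
      Real.rpow_le_rpow (by positivity) hXa hδ.le
    rwa [← Real.rpow_mul (Nat.cast_nonneg K), one_div, inv_mul_cancel₀ hδ.ne',
      Real.rpow_one] at h2
  have hlog : (M : ℝ) + 1 ≤ Real.log X := by
    rw [Real.le_log_iff_exp_le hX0]
    exact hXb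
  obtain ⟨U, hU⟩ : ∃ U : ℕ × ℕ → Finset (ℕ × ℕ), U = fun ab =>
      ((Icc 1 X).filter (fun t => t % M = ab.1 ∧ (X : ℝ) ^ δ ≤ ((X / t : ℕ) : ℝ))).biUnion
        (fun t => ((range (X / t + 1)).filter
          (fun p : ℕ => p.Prime ∧ p % M ∈ ({ab.2} : Finset ℕ))).image
          (fun p => (t, p))) := ⟨_, rfl⟩
  have hsub : {x : ℕ × ℕ | 1 ≤ x.1 ∧ x.2.Prime ∧ (X : ℝ) ^ δ < x.2 ∧ x.1 * x.2 ≤ X ∧
      (x.1 % M, x.2 % M) ∈ S} ⊆ ((S.biUnion U : Finset (ℕ × ℕ)) : Set (ℕ × ℕ)) := by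
    rintro ⟨t, p⟩ ⟨ht1, hp, htp, htpX, hS⟩
    simp only at ht1 hp htp htpX hS
    have h7 : p ≤ X / t := by
      rw [Nat.le_div_iff_mul_le ht1, Nat.mul_comm]
      exact htpX
    have h8 : (p : ℝ) ≤ ((X / t : ℕ) : ℝ) := by exact_mod_cast h7
    rw [mem_coe, mem_biUnion]
    refine ⟨(t % M, p % M), hS, ?_⟩
    rw [hU]
    simp only
    rw [mem_biUnion]
    refine ⟨t, ?_, ?_⟩
    · rw [mem_filter, mem_Icc]
      refine ⟨⟨ht1, ?_⟩, rfl, htp.le.trans h8⟩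
      exact (Nat.le_mul_of_pos_right t hp.pos).trans htpX
    · rw [mem_image]
      refine ⟨p, ?_, rfl⟩
      rw [mem_filter, mem_range]
      exact ⟨by omega, hp, mem_singleton_self _⟩
  have hcard : {x : ℕ × ℕ | 1 ≤ x.1 ∧ x.2.Prime ∧ (X : ℝ) ^ δ < x.2 ∧ x.1 * x.2 ≤ X ∧
      (x.1 % M, x.2 % M) ∈ S}.ncard ≤ ∑ ab ∈ S,
      ∑ t ∈ (Icc 1 X).filter (fun t => t % M = ab.1 ∧ (X : ℝ) ^ δ ≤ ((X / t : ℕ) : ℝ)),
      ((range (X / t + 1)).filter (fun p : ℕ => p.Prime ∧ p % M ∈ ({ab.2} : Finset ℕ))).card := by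
    refine (Set.ncard_le_ncard hsub (Finset.finite_toSet _)).trans ?_
    rw [Set.ncard_coe_finset]
    refine card_biUnion_le.trans (sum_le_sum fun ab _ => ?_)
    rw [hU]
    refine card_biUnion_le.trans (sum_le_sum fun t _ => card_image_le)
  have hcardR : (({x : ℕ × ℕ | 1 ≤ x.1 ∧ x.2.Prime ∧ (X : ℝ) ^ δ < x.2 ∧ x.1 * x.2 ≤ X ∧
      (x.1 % M, x.2 % M) ∈ S}.ncard : ℕ) : ℝ) ≤
      ∑ ab ∈ S, ∑ t ∈ (Icc 1 X).filter (fun t => t % M = ab.1 ∧ (X : ℝ) ^ δ ≤ ((X / t : ℕ) : ℝ)),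
      ((((range (X / t + 1)).filter (fun p : ℕ => p.Prime ∧ p % M ∈ ({ab.2} : Finset ℕ))).card : ℕ) : ℝ) := by
    exact_mod_cast hcard
  refine hcardR.trans ?_
  refine (sum_le_sum fun ab _ => one_class hN₁ hM hδ h1 hlog ab.1 ab.2).trans ?_
  rw [sum_const, nsmul_eq_mul]
  have h8 : (0 : ℝ) ≤ (S.card : ℝ) * ((X : ℝ) / ((M : ℝ) * (Nat.totient M : ℝ))) / δ := by
    positivity
  calc (S.card : ℝ) * (36 / δ * ((X : ℝ) / ((M : ℝ) * (Nat.totient M : ℝ))))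
      = 36 * ((S.card : ℝ) * ((X : ℝ) / ((M : ℝ) * (Nat.totient M : ℝ))) / δ) := by ring
    _ ≤ 200 * ((S.card : ℝ) * ((X : ℝ) / ((M : ℝ) * (Nat.totient M : ℝ))) / δ) := by linarith
    _ = (200 / δ) * ((S.card : ℝ) / ((M : ℝ) * (Nat.totient M : ℝ))) * X := by ring

end Pool.Agent.H183.SQ
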