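import Pool.Agent.H183.SQ.Stm

/-!
# S_ROOTQ: a root of `x^2 + x + lam` modulo `w` (helper323)
-/

set_option autoImplicit false

namespace Pool.Agent.H183.SQ

open Finset Pool.Agent.H183.MU

theorem ROOTQ.sq {L w : ℕ} (hw : w.Prime) (hw8 : w % 8 = 5) (hL : L % 2 = 1) (hd : L ∣ w - 1) :
    IsSquare (-(L : ZMod w)) := by
  have : Fact w.Prime := ⟨hw⟩
  have hw1 : 1 ≤ w := hw.one_lt.le
  have h1 : IsSquare (-1 : ZMod w) := ZMod.exists_sq_eq_neg_one_iff.2 (by omega)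
  have h2 : IsSquare ((L : ℤ) : ZMod w) := by
    by_cases h0 : ((L : ℤ) : ZMod w) = 0
    · rw [h0]
      exact ⟨0, by ring⟩
    · rw [← legendreSym.eq_one_iff w h0, jacobiSym.legendreSym.to_jacobiSym,
        ← jacobiSym.quadratic_reciprocity_one_mod_four (by omega) (Nat.odd_iff.2 hL),
        jacobiSym.mod_left]
      have h3 : (w : ℤ) % (L : ℤ) = 1 % (L : ℤ) := by
        have h4 : (L : ℤ) ∣ (w : ℤ) - 1 := by
          have : ((L : ℕ) : ℤ) ∣ ((w - 1 : ℕ) : ℤ) := Int.natCast_dvd_natCast.2 hd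
          rwa [Nat.cast_sub hw1, Nat.cast_one] at this
        exact Int.emod_eq_emod_iff_emod_sub_eq_zero.2 (Int.emod_eq_zero_of_dvd h4)
      rw [h3, ← jacobiSym.mod_left, jacobiSym.one_left]
  have h3 := h1.mul h2
  rwa [neg_one_mul, Int.cast_natCast] at h3

/-- **S_ROOTQ.** -/
theorem t_ROOTQ : S_ROOTQ := by
  intro lam w hlam hw hw8 hd
  have : Fact w.Prime := ⟨hw⟩
  obtain ⟨s, hs⟩ := ROOTQ.sq (L := 4 * lam - 1) hw hw8 (by omega) hd
  have h2 : (2 : ZMod w) ≠ 0 := by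
    intro h
    have h3 : ((2 : ℕ) : ZMod w) = 0 := by exact_mod_cast h
    rw [ZMod.natCast_eq_zero_iff] at h3
    have := Nat.le_of_dvd (by norm_num) h3
    omega
  have hL : (((4 * lam - 1 : ℕ)) : ZMod w) = 4 * (lam : ZMod w) - 1 := by
    rw [Nat.cast_sub (by omega)]
    push_cast
    ring
  rw [hL] at hs
  refine ⟨(s - 1) * 2⁻¹, ?_⟩
  have h4 : (4 : ZMod w) ≠ 0 := by
    have e : (4 : ZMod w) = 2 * 2 := by norm_num
    rw [e]
    exact mul_ne_zero h2 h2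
  apply mul_left_cancel₀ h4
  have h5 : (2 : ZMod w) * 2⁻¹ = 1 := mul_inv_cancel₀ h2
  have e1 : (4 : ZMod w) * (((s - 1) * 2⁻¹) ^ 2 + (s - 1) * 2⁻¹ + lam) =
      (s - 1) ^ 2 * (2 * 2⁻¹) ^ 2 + 2 * (s - 1) * (2 * 2⁻¹) + 4 * lam := by ring
  rw [e1, h5]
  linear_combination -hs

end Pool.Agent.H183.SQ
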