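import Pool.Agent.H183.MU.LIFT
import Pool.Agent.H183.MU.MULT
import Pool.Agent.H183.MU.EVEN
import Pool.Agent.H183.MU.CNT
import Pool.Agent.H183.MU.DIR
import Pool.Agent.H183.MU.CLSROOT
import Pool.Agent.H183.SQ.PAR
import Pool.Agent.H183.SQ.TRANS
import Pool.Agent.H183.SQ.KEYQ
import Pool.Agent.H183.SQ.PAIRS2
import Pool.Agent.H183.SQ.DENS2
import Pool.Agent.H183.SQ.ROOTQ
import Pool.Agent.H183.SQ.SMU
import Pool.Agent.H183.SQ.QFIN
import Pool.Agent.H183.SQ.REG

/-!
# Symmetric designs of square order with an abelian regular group, `lam` fixed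

The order of a symmetric `2-(v, k, lam)` design is `k - lam`. If the order is a square `u ^ 2` (which is
always so if `v` is even) then the theorem of Bruck, Ryser and Chowla gives nothing, and the test of
Mann and Lander needs information about all the prime factors of `u`. Here one prime factor `p > lam` of
`u` is enough: it is a multiplier of the difference set (second multiplier theorem), and if a power
of `p` is `-1` modulo `w₁ w₂`, where `w₁ ∣ k + u` and `w₂ ∣ k - u` are odd primes, then the characters of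
the quotient of order `w₁ w₂` take the values `± u`, a contradiction. A sieve shows that almost all
`u` have such prime factors.
-/

set_option autoImplicit false

namespace Pool.Agent.H183.SQ.AbelianSquareOrders

/-- The blocks `B i` (`i : Fin v`) form a symmetric `2-(v, k, lam)` design on the points `Fin v`
with `2 ≤ k < v`, and `H` is an abelian group of automorphisms of the design acting regularly (sharply
transitively) on the points. -/
structure IsAbelianRegularDesign (v k lam : ℕ) (B : Fin v → Finset (Fin v))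
    (H : Subgroup (Equiv.Perm (Fin v))) : Prop where
  two_le : 2 ≤ k
  lt : k < v
  size : ∀ i, (B i).card = k
  pair : ∀ x y : Fin v, x ≠ y →
    (Finset.univ.filter (fun i => x ∈ B i ∧ y ∈ B i)).card = lam
  regular : ∀ x y : Fin v, ∃! h : Equiv.Perm (Fin v), h ∈ H ∧ h x = y
  aut : ∀ h ∈ H, ∀ i, ∃ j, (B i).image h = B j
  comm : ∀ a ∈ H, ∀ b ∈ H, a * b = b * a

/-- Let `Λ` and `ε > 0` be given. For all large `X` there are at most `ε X` integers `1 ≤ u ≤ X` such that
`u ^ 2` is the order `k - lam` of a symmetric `2-(v, k, lam)` design with `1 ≤ lam ≤ Λ` and an abelian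
group of automorphisms which acts regularly on the points. -/
theorem square_orders (Λ : ℕ) (ε : ℝ) (hε : 0 < ε) : ∃ X₀ : ℕ, ∀ X : ℕ, X₀ ≤ X →
    ({u : ℕ | 1 ≤ u ∧ u ≤ X ∧ ∃ lam : ℕ, 1 ≤ lam ∧ lam ≤ Λ ∧
      ∃ (v : ℕ) (B : Fin v → Finset (Fin v)) (H : Subgroup (Equiv.Perm (Fin v))),
        IsAbelianRegularDesign v (u ^ 2 + lam) lam B H}.ncard : ℝ) ≤ ε * X := by
  obtain ⟨X₀, hX₀⟩ := Pool.Agent.H183.SQ.t_QFIN
    (Pool.Agent.H183.SQ.t_KEYQ Pool.Agent.H183.SQ.t_PAR
      (Pool.Agent.H183.MU.t_MULT Pool.Agent.H183.MU.t_LIFT) Pool.Agent.H183.SQ.t_TRANS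
      Pool.Agent.H183.MU.t_EVEN)
    (Pool.Agent.H183.SQ.t_DENS2 Pool.Agent.H183.MU.t_CNT Pool.Agent.H183.SQ.t_PAIRS2)
    Pool.Agent.H183.MU.t_DIR Pool.Agent.H183.MU.t_CLS Pool.Agent.H183.SQ.t_ROOTQ
    Pool.Agent.H183.SQ.t_SMU Λ ε hε
  refine ⟨X₀, fun X hX => le_trans ?_ (hX₀ X hX)⟩
  have hfin : {u : ℕ | 1 ≤ u ∧ u ≤ X ∧ ∃ lam : ℕ, 1 ≤ lam ∧ lam ≤ Λ ∧
      Pool.Agent.H183.SQ.HasSq u lam}.Finite := (Set.finite_Iic X).subset fun u hu => hu.2.1
  exact_mod_cast Set.ncard_le_ncard (fun u hu => by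
    obtain ⟨h1, h2, lam, h3, h4, v, B, H, hd⟩ := hu
    exact ⟨h1, h2, lam, h3, h4, Pool.Agent.H183.SQ.REG.hasSq_of_reg
      ⟨hd.lt, hd.size, hd.pair, hd.regular, hd.aut⟩ h3 (hd.two_le.trans hd.lt.le) hd.comm⟩) hfin

end Pool.Agent.H183.SQ.AbelianSquareOrders
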